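import Mathlib
import Pool.Agent.Q296.Towers

namespace Pool.Agent.Results.MP_952e1b_co.TypeIFourCells

open Pool.Agent.Q296.Towers

/-- `FE^I_n(X)` for `X = {x_0 < x_1 < ...}`. -/
def FE (x : ℕ → ℕ) : ℕ → Set ℕ
  | 0 => {x 0}
  | n + 1 => {z | ∃ y ∈ FE x n, z = y ^ x (n + 1)} ∪ FE x n ∪ {x (n + 1)}

/-- `C` is an exponential IP set of type I: `⋃_n FE^I_n(X) ⊆ C` for some infinite `X`, listed
increasingly as `x_0 < x_1 < ...`. -/
def IsExpIP (C : Set ℕ) : Prop := ∃ x : ℕ → ℕ, StrictMono x ∧ (⋃ n, FE x n) ⊆ C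

lemma FE_mono (x : ℕ → ℕ) {i j : ℕ} (h : i ≤ j) : FE x i ⊆ FE x j := by
  induction j, h using Nat.le_induction with
  | base => exact subset_rfl
  | succ n _ ih => exact ih.trans (fun z hz => Or.inl (Or.inr hz))

lemma self_mem (x : ℕ → ℕ) (i : ℕ) : x i ∈ FE x i := by
  cases i with
  | zero => exact rfl
  | succ n => exact Or.inr rfl

lemma pow_mem (x : ℕ → ℕ) {i j : ℕ} (h : i < j) : x i ^ x j ∈ FE x j := by
  obtain ⟨n, rfl⟩ : ∃ n, j = n + 1 := ⟨j - 1, by omega⟩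
  exact Or.inl (Or.inl ⟨x i, FE_mono x (by omega : i ≤ n) (self_mem x i), rfl⟩)

open Classical in
/-- the colouring -/
noncomputable def col (n : ℕ) : Fin 4 :=
  if n ∈ A 4 then (if n ∈ A 8 then 0 else 1) else (if n ∈ A 8 then 2 else 3)

lemma col_eq {m n : ℕ} (h : col m = col n) : (m ∈ A 4 ↔ n ∈ A 4) ∧ (m ∈ A 8 ↔ n ∈ A 8) := by
  unfold col at h
  by_cases h1 : m ∈ A 4 <;> by_cases h2 : m ∈ A 8 <;> by_cases h3 : n ∈ A 4 <;>
    by_cases h4 : n ∈ A 8 <;> simp_all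

/-- There is a partition of `ℕ` into four (nonempty) cells none of which is an exponential IP set
of type I. -/
theorem result : ∃ c : ℕ → Fin 4, Function.Surjective c ∧ ∀ i, ¬ IsExpIP (c ⁻¹' {i}) := by
  refine ⟨col, ?_, ?_⟩
  · have a4 : ∀ n, 4 ≤ n → n < 16 → n ∈ A 4 := fun n h1 h2 =>
      (mem_A_iff 4 0 n (by simpa [t] using h1) (by norm_num [t]; omega)).mpr (by decide)
    have a4' : ∀ n, 16 ≤ n → n < 65536 → n ∉ A 4 := fun n h1 h2 =>
      (mem_A_iff 4 1 n (by norm_num [t]; omega) (by norm_num [t]; omega)).not.mpr (by decide)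
    have a8 : ∀ n, 8 ≤ n → n < 256 → n ∈ A 8 := fun n h1 h2 =>
      (mem_A_iff 8 0 n (by simpa [t] using h1) (by norm_num [t]; omega)).mpr (by decide)
    have low : ∀ a n, n < a → n ∉ A a := by
      rintro a n h ⟨k, _, h2, _⟩
      have : t a 0 ≤ t a k := (t_strictMono a).monotone (Nat.zero_le k)
      simp only [t] at this
      omega
    intro i
    fin_cases i
    · exact ⟨8, by simp [col, a4 8 (by norm_num) (by norm_num), a8 8 (by norm_num) (by norm_num)]⟩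
    · exact ⟨4, by simp [col, a4 4 (by norm_num) (by norm_num), low 8 4 (by norm_num)]⟩
    · exact ⟨16, by
        simp [col, a4' 16 (by norm_num) (by norm_num), a8 16 (by norm_num) (by norm_num)]⟩
    · exact ⟨0, by simp [col, low 4 0 (by norm_num), low 8 0 (by norm_num)]⟩
  · rintro i ⟨x, hx, hsub⟩
    have hmem : ∀ n, FE x n ⊆ col ⁻¹' {i} := fun n =>
      (Set.subset_iUnion (FE x) n).trans hsub
    have hx2 : 2 ≤ x 2 := hx.le_apply
    set n := x 2 with hn
    obtain ⟨j, hj1, hj2, hj3, hj4⟩ : ∃ j, 2 < j ∧ 2 ^ (n * n) ≤ x j ∧ 65536 ≤ x j ∧ n ≤ x j := by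
      generalize 2 ^ (n * n) = q
      refine ⟨q + 65536 + n + 3, by omega, ?_, ?_, ?_⟩ <;>
      · have := hx.le_apply (x := q + 65536 + n + 3)
        omega
    set m := x j with hm
    have c1 : col m = i := hmem j (self_mem x j)
    have c2 : col (n ^ m) = i := hmem j (pow_mem x hj1)
    obtain ⟨e4, e8⟩ := col_eq (c2.trans c1.symm)
    by_cases h4 : ∀ k, ¬ (m < t 4 k ∧ t 4 k ≤ m ^ n)
    · have := (flip 4 n m hx2 hj4 (by omega) h4).2
      tauto
    · have h8 : ∀ k, ¬ (m < t 8 k ∧ t 8 k ≤ m ^ n) := by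
        push Not at h4
        obtain ⟨i, hi1, hi2⟩ := h4
        rintro k ⟨hk1, hk2⟩
        exact not_both n m hj2 hj3 i k hi1 hi2 hk1 hk2
      have := (flip 8 n m hx2 hj4 (by omega) h8).2
      tauto

end Pool.Agent.Results.MP_952e1b_co.TypeIFourCells
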